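import Pool.Agent.H523.ZG.Stm

set_option autoImplicit false
set_option linter.unusedSectionVars false

/-! # Parseval for the error terms of a modulus (project ZG, task D3) -/

namespace Pool.Agent.H695.ZG

open Polynomial Finset
open Pool.Agent.H523 Pool.Agent.H523.ZG
open Pool.Agent.H341R2.Sharp (Mon mem_Mon)
open Pool.Agent.H523.FF (Ir mem_Ir PL mem_PL card_PL two_le_card IrLE mem_IrLE)
open Pool.Agent.H523.CM (th vth tot)

open scoped Classical

theorem char_zero {B : Type} [CommRing B] {χ : MulChar B ℂ} (h : χ ≠ 1) : χ 0 = 0 := by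
  rcases subsingleton_or_nontrivial B with hB | hB
  · exfalso
    apply h
    ext u
    rw [MulChar.one_apply_coe, Subsingleton.elim (u : B) 1, map_one]
  · exact MulChar.map_zero χ

variable {F : Type} [Field F] [Fintype F]

theorem th_coprime {M : F[X]} (hM : M.Monic) {n : ℕ} (hn : M.natDegree < n) {f : F[X]}
    (hf : th n f ≠ 0) : IsCoprime f M := by
  have h1 : f ∈ Ir F n := by
    by_contra h
    exact hf (if_neg h)
  obtain ⟨h2, h3, h4⟩ := mem_Ir.mp h1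
  rw [h3.coprime_iff_not_dvd]
  intro h5
  have := natDegree_le_of_dvd h5 hM.ne_zero
  omega

theorem psi_one {M : F[X]} (hM : M.Monic) {n : ℕ} (hn : M.natDegree < n) :
    psi n M 1 = ((Th F n : ℝ) : ℂ) := by
  unfold psi Th
  rw [Complex.ofReal_sum]
  refine sum_congr rfl fun f _ => ?_
  by_cases hf : th n f = 0
  · rw [hf, Complex.ofReal_zero, zero_mul]
  · rw [MulChar.one_apply (RH.isUnit_mk_iff.mpr (th_coprime hM hn hf)), mul_one]

theorem term_eq {M : F[X]} (hM : M.Monic) {n : ℕ} (hn : M.natDegree < n)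
    [Fintype (MulChar (AdjoinRoot M) ℂ)] (Q : F[X]) (u : (AdjoinRoot M)ˣ)
    (hu : (u : AdjoinRoot M) = AdjoinRoot.mk M Q) (h : F[X]) :
    (Nat.card (AdjoinRoot M)ˣ : ℂ) *
      ((vth n M (Q * h) - (if IsCoprime h M then Th F n / tot M else 0) : ℝ) : ℂ) =
      ∑ χ ∈ (univ : Finset (MulChar (AdjoinRoot M) ℂ)).erase 1, χ (↑u⁻¹ : AdjoinRoot M) *
        (psi n M χ * (starRingEnd ℂ) (χ (AdjoinRoot.mk M h))) := by
  have := RH.finite_adjoinRoot hM
  have hG0 : (Nat.card (AdjoinRoot M)ˣ : ℂ) ≠ 0 := by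
    rw [Nat.cast_ne_zero]
    exact Nat.card_pos.ne'
  by_cases hc : IsCoprime h M
  · rw [if_pos hc]
    obtain ⟨v, hv⟩ := (RH.isUnit_mk_iff (M := M)).mpr hc
    have huv : ((u * v : (AdjoinRoot M)ˣ) : AdjoinRoot M) = AdjoinRoot.mk M (Q * h) := by
      rw [Units.val_mul, hu, hv, map_mul]
    have h1 : ∀ χ : MulChar (AdjoinRoot M) ℂ, χ (↑u⁻¹ : AdjoinRoot M) *
        (psi n M χ * (starRingEnd ℂ) (χ (AdjoinRoot.mk M h))) =
        ∑ f ∈ Mon F n, (th n f : ℂ) * (χ (↑(u * v)⁻¹ : AdjoinRoot M) * χ (AdjoinRoot.mk M f)) := by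
      intro χ
      rw [← hv, CM.conj_char χ v, mul_inv_rev, Units.val_mul, map_mul]
      unfold psi
      rw [sum_mul, mul_sum]
      refine sum_congr rfl fun f _ => ?_
      ring
    have h2 : ∑ χ : MulChar (AdjoinRoot M) ℂ, χ (↑u⁻¹ : AdjoinRoot M) *
        (psi n M χ * (starRingEnd ℂ) (χ (AdjoinRoot.mk M h))) =
        (Nat.card (AdjoinRoot M)ˣ : ℂ) * ((vth n M (Q * h) : ℝ) : ℂ) := by
      rw [sum_congr rfl fun χ _ => h1 χ, sum_comm]
      unfold vth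
      rw [Complex.ofReal_sum, sum_filter, mul_sum]
      refine sum_congr rfl fun f _ => ?_
      rw [← mul_sum, RH.detect (u * v) (AdjoinRoot.mk M f), huv]
      by_cases hf : M ∣ f - Q * h
      · rw [if_pos hf, if_pos (AdjoinRoot.mk_eq_mk.mpr hf)]
        ring
      · rw [if_neg hf, if_neg (fun h' => hf (AdjoinRoot.mk_eq_mk.mp h'))]
        ring
    have h3 := Finset.add_sum_erase (univ : Finset (MulChar (AdjoinRoot M) ℂ))
      (fun χ => χ (↑u⁻¹ : AdjoinRoot M) *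
        (psi n M χ * (starRingEnd ℂ) (χ (AdjoinRoot.mk M h)))) (mem_univ 1)
    rw [h2] at h3
    have h4 : (1 : MulChar (AdjoinRoot M) ℂ) (↑u⁻¹ : AdjoinRoot M) *
        (psi n M 1 * (starRingEnd ℂ) ((1 : MulChar (AdjoinRoot M) ℂ) (AdjoinRoot.mk M h))) =
        ((Th F n : ℝ) : ℂ) := by
      rw [MulChar.one_apply_coe, ← hv, MulChar.one_apply_coe, map_one, psi_one hM hn]
      ring
    rw [h4] at h3
    have h5 : (Nat.card (AdjoinRoot M)ˣ : ℂ) * (((Th F n : ℝ) : ℂ) /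
        (Nat.card (AdjoinRoot M)ˣ : ℂ)) = ((Th F n : ℝ) : ℂ) := mul_div_cancel₀ _ hG0
    rw [CM.tot_eq_card hM, Complex.ofReal_sub, Complex.ofReal_div, Complex.ofReal_natCast, mul_sub,
      h5]
    linear_combination -h3
  · rw [if_neg hc, sub_zero]
    have h1 : vth n M (Q * h) = 0 := by
      unfold vth
      refine sum_eq_zero fun f hf => ?_
      by_contra hne
      apply hc
      have h2 := th_coprime hM hn hne
      have h3 : IsUnit (AdjoinRoot.mk M f) := RH.isUnit_mk_iff.mpr h2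
      rw [AdjoinRoot.mk_eq_mk.mpr (mem_filter.mp hf).2, map_mul] at h3
      exact RH.isUnit_mk_iff.mp (isUnit_of_mul_isUnit_right h3)
    rw [h1, Complex.ofReal_zero, mul_zero]
    symm
    refine sum_eq_zero fun χ _ => ?_
    rw [χ.map_nonunit (fun h' => hc (RH.isUnit_mk_iff.mp h')), map_zero, mul_zero, mul_zero]

theorem DM_eq {M : F[X]} (hM : M.Monic) {n : ℕ} (hn : M.natDegree < n)
    [Fintype (MulChar (AdjoinRoot M) ℂ)] (Q : F[X]) (u : (AdjoinRoot M)ˣ)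
    (hu : (u : AdjoinRoot M) = AdjoinRoot.mk M Q) :
    (Nat.card (AdjoinRoot M)ˣ : ℂ) * ((DM n M Q : ℝ) : ℂ) =
      ∑ χ ∈ (univ : Finset (MulChar (AdjoinRoot M) ℂ)).erase 1, χ (↑u⁻¹ : AdjoinRoot M) *
        (psi n M χ * (starRingEnd ℂ) (hsum (n - Q.natDegree) M χ)) := by
  unfold DM
  rw [Complex.ofReal_sum, mul_sum, sum_congr rfl fun h _ => term_eq hM hn Q u hu h, sum_comm]
  refine sum_congr rfl fun χ hχ => ?_
  rw [← mul_sum, ← mul_sum]
  congr 2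
  unfold hsum
  rw [← map_sum]
  congr 1
  rw [sum_filter]
  refine sum_congr rfl fun h _ => ?_
  split_ifs with h0
  · rfl
  · have h1 : h = 0 := not_not.mp h0
    rw [h1, map_zero, char_zero (ne_of_mem_erase hχ)]

/-- **Task D3.** -/
theorem main : S_D3 := by
  intro F _ _ n d M _ hM hMd hdn
  have hfin := RH.finite_adjoinRoot hM
  have hn : M.natDegree < n := by omega
  obtain ⟨S, hS⟩ : ∃ S : Finset (MulChar (AdjoinRoot M) ℂ),
      S = (univ : Finset (MulChar (AdjoinRoot M) ℂ)).erase 1 := ⟨_, rfl⟩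
  have hDM : ∀ (Q : F[X]) (u : (AdjoinRoot M)ˣ), (u : AdjoinRoot M) = AdjoinRoot.mk M Q →
      (Nat.card (AdjoinRoot M)ˣ : ℂ) * ((DM n M Q : ℝ) : ℂ) =
      ∑ χ ∈ S, χ (↑u⁻¹ : AdjoinRoot M) *
        (psi n M χ * (starRingEnd ℂ) (hsum (n - Q.natDegree) M χ)) := by
    intro Q u hu
    rw [hS]
    exact DM_eq hM hn Q u hu
  rw [← hS]
  clear hS
  let _ : Fintype (AdjoinRoot M)ˣ := Fintype.ofFinite _
  let _ : Fintype (AdjoinRoot M) := Fintype.ofFinite _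
  obtain ⟨G, hG⟩ : ∃ G : ℝ, G = (Nat.card (AdjoinRoot M)ˣ : ℝ) := ⟨_, rfl⟩
  have hG0 : 0 < G := by
    rw [hG]
    exact_mod_cast Nat.card_pos
  let a : MulChar (AdjoinRoot M) ℂ → ℂ :=
    fun χ => psi n M χ * (starRingEnd ℂ) (hsum (n - d) M χ)
  let Z : (AdjoinRoot M)ˣ → ℝ := fun u =>
    ‖∑ χ ∈ S, χ (↑u⁻¹ : AdjoinRoot M) * a χ‖ ^ 2
  let Y : AdjoinRoot M → ℝ := fun x => ∑ u : (AdjoinRoot M)ˣ, if (u : AdjoinRoot M) = x then Z u else 0
  have hY : ∀ u : (AdjoinRoot M)ˣ, Y u = Z u := by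
    intro u
    show (∑ v : (AdjoinRoot M)ˣ, if (v : AdjoinRoot M) = u then Z v else 0) = Z u
    rw [sum_eq_single_of_mem u (mem_univ u)]
    · rw [if_pos rfl]
    · intro v _ hv
      rw [if_neg (fun h => hv (Units.ext h))]
  have hY0 : ∀ x : AdjoinRoot M, ¬ IsUnit x → Y x = 0 := by
    intro x hx
    show (∑ v : (AdjoinRoot M)ˣ, if (v : AdjoinRoot M) = x then Z v else 0) = 0
    refine sum_eq_zero fun v _ => ?_
    rw [if_neg]
    intro h
    exact hx (h ▸ v.isUnit)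
  have hYsum : ∑ x : AdjoinRoot M, Y x = ∑ u : (AdjoinRoot M)ˣ, Z u := by
    show (∑ x : AdjoinRoot M, ∑ u : (AdjoinRoot M)ˣ, if (u : AdjoinRoot M) = x then Z u else 0) = _
    rw [sum_comm]
    refine sum_congr rfl fun u _ => ?_
    rw [sum_ite_eq univ (u : AdjoinRoot M), if_pos (mem_univ _)]
  have h1 : ∀ Q ∈ Mon F d, (if IsCoprime Q M then DM n M Q ^ 2 else 0) =
      Y (AdjoinRoot.mk M Q) / G ^ 2 := by
    intro Q hQ
    split_ifs with hc
    · obtain ⟨u, hu⟩ := (RH.isUnit_mk_iff (M := M)).mpr hc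
      have h2 := hDM Q u hu
      rw [(mem_Mon.mp hQ).2] at h2
      rw [← hu, hY u]
      show _ = ‖∑ χ ∈ S,
        χ (↑u⁻¹ : AdjoinRoot M) * (psi n M χ * (starRingEnd ℂ) (hsum (n - d) M χ))‖ ^ 2 / G ^ 2
      rw [← h2, norm_mul, Complex.norm_natCast, Complex.norm_real, Real.norm_eq_abs, mul_pow,
        sq_abs, ← hG, mul_comm, mul_div_assoc, div_self (by positivity), mul_one]
    · rw [hY0 _ (fun h' => hc (RH.isUnit_mk_iff.mp h')), zero_div]
  have h2 : ∑ Q ∈ Mon F d, Y (AdjoinRoot.mk M Q) =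
      ((Fintype.card F ^ (d - M.natDegree) : ℕ) : ℝ) * ∑ u : (AdjoinRoot M)ˣ, Z u := by
    rw [CM.sum_Mon_eq d (fun Q => Y (AdjoinRoot.mk M Q)),
      CM.sum_periodic hM hMd (fun f => Y (AdjoinRoot.mk M f))
        (fun x y hxy => by rw [AdjoinRoot.mk_eq_mk.mpr hxy]) (X ^ d)]
    congr 1
    have h3 : ∀ b : F[X], Y (AdjoinRoot.mk M (X ^ d + b)) =
        Y (AdjoinRoot.mk M (X ^ d) + AdjoinRoot.mk M b) := fun b => by rw [map_add]
    rw [sum_congr rfl fun b _ => h3 b, ← CM.sum_resB hM (fun x => Y (AdjoinRoot.mk M (X ^ d) + x)),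
      ← hYsum]
    exact Fintype.sum_equiv (Equiv.addLeft (AdjoinRoot.mk M (X ^ d))) _ _ (fun x => rfl)
  have h3 := RH.parseval (S) a
  have h4 : ∑ u : (AdjoinRoot M)ˣ, Z u = G *
      ∑ χ ∈ S,
        ‖psi n M χ‖ ^ 2 * ‖hsum (n - d) M χ‖ ^ 2 := by
    show (∑ u : (AdjoinRoot M)ˣ, ‖∑ χ ∈ S,
      χ (↑u⁻¹ : AdjoinRoot M) * a χ‖ ^ 2) = _
    rw [h3, ← hG]
    congr 1
    refine sum_congr rfl fun χ _ => ?_
    show ‖psi n M χ * (starRingEnd ℂ) (hsum (n - d) M χ)‖ ^ 2 = _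
    rw [norm_mul, RCLike.norm_conj, mul_pow]
  rw [sum_filter, sum_congr rfl h1, ← sum_div, h2, h4, CM.tot_eq_card hM, ← hG]
  refine le_of_eq ?_
  generalize (∑ χ ∈ S,
    ‖psi n M χ‖ ^ 2 * ‖hsum (n - d) M χ‖ ^ 2) = W
  push_cast
  field_simp

end Pool.Agent.H695.ZG
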